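import Pool.Agent.helper77.MC.Spec

set_option autoImplicit false

namespace Pool.Agent.helper77.MC

open Finset Numbering

theorem S2_cls (n k : ℕ) (x : Fin n → ℝ) (P : Finset (Fin n)) (Z : Finset (Finset (Fin n)))
    (h : ∀ s ∈ Z, #s ≤ k ∧ ∑ i ∈ s, x i = 0 ∧ s.filter (fun i => ¬ x i < 0) = P) :
    #Z ≤ #(fam (fun i : {i : Fin n // x i < 0} => - x i.1) (∑ i ∈ P, x i) (k - #P)) := by
  classical
  apply Finset.card_le_card_of_injOn (fun s => s.subtype (fun i => x i < 0))
  · intro s hs
    obtain ⟨hk, hs0, hP⟩ := h s hs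
    have h1 : ∑ i ∈ s.subtype (fun i => x i < 0), (- x i.1) =
        ∑ i ∈ s.filter (fun i => x i < 0), (- x i) :=
      Finset.sum_subtype_eq_sum_filter (s := s) (p := fun i => x i < 0) (f := fun i => - x i)
    have h2 := Finset.sum_filter_add_sum_filter_not s (fun i => x i < 0) x
    have h3 := Finset.card_filter_add_card_filter_not (s := s) (fun i => x i < 0)
    rw [hP] at h2 h3
    have h4 : #(s.subtype (fun i => x i < 0)) = #(s.filter (fun i => x i < 0)) :=
      Finset.card_subtype _ _
    refine Finset.mem_coe.2 ?_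
    unfold fam
    refine Finset.mem_filter.2 ⟨Finset.mem_univ _, ?_, ?_⟩
    · rw [h1, Finset.sum_neg_distrib]
      linarith
    · rw [h4]
      omega
  · intro s hs s' hs' hss
    obtain ⟨-, -, hP⟩ := h s hs
    obtain ⟨-, -, hP'⟩ := h s' hs'
    have h1 : s.filter (fun i => x i < 0) = s'.filter (fun i => x i < 0) := by
      have h2 : s.subtype (fun i => x i < 0) = s'.subtype (fun i => x i < 0) := hss
      have h3 := congrArg (fun t => t.map (Function.Embedding.subtype _)) h2
      simpa only [Finset.subtype_map] using h3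
    rw [← Finset.filter_union_filter_not_eq (fun i => x i < 0) s,
      ← Finset.filter_union_filter_not_eq (fun i => x i < 0) s', h1, hP, hP']

theorem S2 : S2_stmt := by
  intro n k x u v h0 huv hpos
  classical
  have hcard2 : #({u, v} : Finset (Fin n)) = 2 := Finset.card_pair huv
  have hA := S2_cls n k x {u} ((univ.filter (fun s : Finset (Fin n) =>
    s.Nonempty ∧ #s ≤ k ∧ ∑ i ∈ s, x i = 0)).filter
      (fun s => s.filter (fun i => ¬ x i < 0) = {u})) (by
        intro s hs
        obtain ⟨hs, hs'⟩ := Finset.mem_filter.1 hs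
        exact ⟨(Finset.mem_filter.1 hs).2.2.1, (Finset.mem_filter.1 hs).2.2.2, hs'⟩)
  have hB := S2_cls n k x {v} ((univ.filter (fun s : Finset (Fin n) =>
    s.Nonempty ∧ #s ≤ k ∧ ∑ i ∈ s, x i = 0)).filter
      (fun s => s.filter (fun i => ¬ x i < 0) = {v})) (by
        intro s hs
        obtain ⟨hs, hs'⟩ := Finset.mem_filter.1 hs
        exact ⟨(Finset.mem_filter.1 hs).2.2.1, (Finset.mem_filter.1 hs).2.2.2, hs'⟩)
  have hC := S2_cls n k x {u, v} ((univ.filter (fun s : Finset (Fin n) =>
    s.Nonempty ∧ #s ≤ k ∧ ∑ i ∈ s, x i = 0)).filter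
      (fun s => s.filter (fun i => ¬ x i < 0) = {u, v})) (by
        intro s hs
        obtain ⟨hs, hs'⟩ := Finset.mem_filter.1 hs
        exact ⟨(Finset.mem_filter.1 hs).2.2.1, (Finset.mem_filter.1 hs).2.2.2, hs'⟩)
  rw [Finset.sum_singleton, Finset.card_singleton] at hA hB
  rw [Finset.sum_pair huv, hcard2] at hC
  refine le_trans ?_ (Nat.add_le_add (Nat.add_le_add hA hB) hC)
  have hzer : Pool.Agent.helper72.UP.zer x k = #(univ.filter (fun s : Finset (Fin n) =>
    s.Nonempty ∧ #s ≤ k ∧ ∑ i ∈ s, x i = 0)) := by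
    unfold Pool.Agent.helper72.UP.zer
    congr 1
  rw [hzer]
  refine le_trans ?_ (Nat.add_le_add_right (Finset.card_union_le _ _) _)
  refine le_trans ?_ (Finset.card_union_le _ _)
  apply Finset.card_le_card
  intro s hs
  have hneg : ∀ i, x i < 0 ↔ ¬ (i = u ∨ i = v) := by
    intro i
    rw [← hpos i, not_lt]
    exact ⟨le_of_lt, fun h => lt_of_le_of_ne h (h0 i)⟩
  have hQ : ∀ i, i ∈ s.filter (fun i => ¬ x i < 0) ↔ i ∈ s ∧ (i = u ∨ i = v) := by
    intro i
    rw [Finset.mem_filter, hneg i, not_not]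
  obtain ⟨-, hne, hk, hsum⟩ := Finset.mem_filter.1 hs
  have hex : u ∈ s ∨ v ∈ s := by
    by_contra hno
    push Not at hno
    have hlt : ∑ i ∈ s, x i < ∑ i ∈ s, (0 : ℝ) := by
      apply Finset.sum_lt_sum_of_nonempty hne
      intro i hi
      rw [hneg i]
      rintro (rfl | rfl)
      · exact hno.1 hi
      · exact hno.2 hi
    rw [hsum, Finset.sum_const_zero] at hlt
    exact lt_irrefl _ hlt
  by_cases hu : u ∈ s
  · by_cases hv : v ∈ s
    · apply Finset.mem_union_right
      refine Finset.mem_filter.2 ⟨hs, ?_⟩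
      ext i
      rw [hQ, Finset.mem_insert, Finset.mem_singleton]
      constructor
      · exact fun h => h.2
      · rintro (rfl | rfl)
        · exact ⟨hu, Or.inl rfl⟩
        · exact ⟨hv, Or.inr rfl⟩
    · apply Finset.mem_union_left
      apply Finset.mem_union_left
      refine Finset.mem_filter.2 ⟨hs, ?_⟩
      ext i
      rw [hQ, Finset.mem_singleton]
      constructor
      · rintro ⟨hi, rfl | rfl⟩
        · rfl
        · exact absurd hi hv
      · rintro rfl
        exact ⟨hu, Or.inl rfl⟩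
  · have hv : v ∈ s := hex.resolve_left hu
    apply Finset.mem_union_left
    apply Finset.mem_union_right
    refine Finset.mem_filter.2 ⟨hs, ?_⟩
    ext i
    rw [hQ, Finset.mem_singleton]
    constructor
    · rintro ⟨hi, rfl | rfl⟩
      · exact absurd hi hu
      · rfl
    · rintro rfl
      exact ⟨hv, Or.inr rfl⟩

end Pool.Agent.helper77.MC
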